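import Pool.Agent.H35.ZCL.Cov

/-!
# A chart of the zoom gives a covector of the family
-/

set_option autoImplicit false

namespace Pool.ZCL

open Finset Real
open Pool.Agent.H49.Ent Pool.Agent.H32.Dense Pool.STK Pool.KA Pool.KSAT Pool.K2S Pool.PB
open Pool.S6K (exact_label steep_ball ball_claim)

/-- Normalisation of a covector. -/
theorem norm_cov (v : Fin 3 → ℝ) : ∃ ν : Fin 3 → ℝ, ((∀ i, |ν i| ≤ 1) ∧ ∃ i, |ν i| = 1) ∧
    ∀ (x : Fin 3 → ℝ) (ρ c : ℝ), 0 < c → (∃ j, c ≤ |v j|) → |∑ i, v i * x i| ≤ ρ →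
      |∑ i, ν i * x i| ≤ ρ / c := by
  obtain ⟨k, -, hk⟩ := Finset.exists_max_image (Finset.univ : Finset (Fin 3)) (fun i => |v i|)
    ⟨0, Finset.mem_univ _⟩
  rcases eq_or_ne (v k) 0 with h0 | h0
  · refine ⟨fun _ => 1, ⟨fun i => by simp, 0, by simp⟩, ?_⟩
    rintro x ρ c hc ⟨j, hj⟩ -
    have h1 := hk j (Finset.mem_univ _)
    simp only [h0, abs_zero] at h1
    linarith only [hc, hj, h1]
  · have hN : 0 < |v k| := abs_pos.2 h0
    refine ⟨fun i => v i / |v k|, ⟨fun i => ?_, k, ?_⟩, ?_⟩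
    · rw [abs_div, abs_abs, div_le_one hN]
      exact hk i (Finset.mem_univ _)
    · rw [abs_div, abs_abs, div_self hN.ne']
    · rintro x ρ c hc ⟨j, hj⟩ h
      have h1 := hk j (Finset.mem_univ _)
      have h2 : ∑ i, v i / |v k| * x i = (∑ i, v i * x i) / |v k| := by
        rw [Finset.sum_div]
        refine Finset.sum_congr rfl fun i _ => ?_
        ring
      rw [h2, abs_div, abs_abs]
      have hρ : 0 ≤ ρ := (abs_nonneg _).trans h
      calc |∑ i, v i * x i| / |v k| ≤ ρ / |v k| := div_le_div_of_nonneg_right h hN.le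
        _ ≤ ρ / c := div_le_div_of_nonneg_left hρ hc (hj.trans h1)

/-- The pull back of a covector by the coordinates. -/
theorem pull_cov (lam : ℕ) (i₀ : Fin 3) (z : Fin 3 → ℝ) (l x x' : Fin 3 → ℝ) :
    ∑ i, l i * (pco lam i₀ z x i - pco lam i₀ z x' i) =
      ∑ i, (if i = i₀ then l i₀ - 2 ^ lam * ∑ j, (if j = i₀ then 0 else l j * z j) else
        2 ^ lam * l i) * (x i - x' i) := by
  unfold pco
  fin_cases i₀ <;> simp [Fin.sum_univ_three] <;> ring

/-- **A chart of the zoom**, in any index, gives a covector at the points of precision `r`. -/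
theorem cov_of_ch : CovOfChStmt := by
  classical
  intro a R h₁ ha hR hU hh₁ i₀ y hy κ hκ
  obtain ⟨x, hx⟩ : ∃ x, x = min (y / 8) (h₁ / 4) := ⟨_, rfl⟩
  have hx0 : 0 < x := by rw [hx]; exact lt_min (by positivity) (by positivity)
  have hx1 : x ≤ y / 8 := by rw [hx]; exact min_le_left _ _
  have hx2 : x ≤ h₁ / 4 := by rw [hx]; exact min_le_right _ _
  obtain ⟨τb, hτb, Jb, hball⟩ := ball_claim (m := 3) ha hR hU hx0
  obtain ⟨C, hC⟩ : ∃ C : ℝ, C = ((2 * ((5 + 6 + 7 : ℕ) : ℝ) + 1) ^ 3) ^ 3 * 2 := ⟨_, rfl⟩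
  have hC1 : 1 ≤ C := by
    rw [hC]
    have h1 : (1 : ℝ) ≤ ((2 * ((5 + 6 + 7 : ℕ) : ℝ) + 1) ^ 3) ^ 3 :=
      one_le_pow₀ (one_le_pow₀ (by norm_num))
    linarith only [h1]
  obtain ⟨κ', hκ'⟩ : ∃ κ', κ' = min κ (τb / 3) := ⟨_, rfl⟩
  have hκ0 : 0 < κ' := by rw [hκ']; exact lt_min hκ (by positivity)
  have hκ1 : κ' ≤ κ := by rw [hκ']; exact min_le_left _ _
  have hκ2 : κ' ≤ τb / 3 := by rw [hκ']; exact min_le_right _ _
  obtain ⟨Je, hJe⟩ := Pool.S6K.exp_small hκ0 hC1
  obtain ⟨Jx, hJx⟩ := exists_nat_gt (8 / x + 8 / h₁ + 8 / y)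
  refine ⟨τb / 3, by positivity, max (max Jb Je) Jx, fun J hJ F A hS hL r w lam J' z h hr hrJ hz
    hA B θ hθ hB i₁ q hq hqJ hCh => ?_⟩
  have hJb : Jb ≤ J := (le_max_left _ _).trans ((le_max_left _ _).trans hJ)
  have hJe' : Je ≤ J := (le_max_right _ _).trans ((le_max_left _ _).trans hJ)
  have hJx' : 8 / x + 8 / h₁ + 8 / y < J := hJx.trans_le (by exact_mod_cast (le_max_right _ _).trans hJ)
  have q1 : 0 < 8 / x := by positivity
  have q2 : 0 < 8 / h₁ := by positivity
  have q3 : 0 < 8 / y := by positivity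
  have hJr : (0 : ℝ) < J := by linarith only [hJx', q1, q2, q3]
  have hxJ : 8 ≤ x * J := by
    have : 8 / x ≤ J := by linarith only [hJx', q2, q3]
    rw [div_le_iff₀ hx0] at this
    linarith only [this]
  exact by
   have hyJ : 8 * (x * J) ≤ y * J := by
     have := mul_le_mul_of_nonneg_right hx1 hJr.le
     linarith only [this]
   have hp := F.isLaw
   have hA0 : 0 < Pe F.p A := lt_of_lt_of_le (Real.exp_pos _) hS.2.2.2
   -- the threshold
   obtain ⟨s₀, hs₀⟩ : ∃ s₀ : ℕ, s₀ = ⌊y * J / 2⌋₊ := ⟨_, rfl⟩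
   have hs1 : (s₀ : ℝ) ≤ y * J / 2 := by
     rw [hs₀]
     exact Nat.floor_le (by positivity)
   have hs2 : y * J / 2 < s₀ + 1 := by
     rw [hs₀]
     exact Nat.lt_floor_add_one _
   have hs3 : s₀ + 3 ≤ ⌈y * J⌉₊ := by
     have h1 : (((s₀ + 3 : ℕ) : ℝ)) ≤ y * J := by
       push_cast
       linarith only [hxJ, hyJ, hs1]
     have h2 : (((s₀ + 3 : ℕ) : ℝ)) ≤ (⌈y * J⌉₊ : ℝ) := h1.trans (Nat.le_ceil _)
     exact_mod_cast h2
   have hs4 : s₀ + 2 ≤ q := by
     have h1 : (((s₀ + 2 : ℕ) : ℝ)) ≤ q := by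
       push_cast
       linarith only [hq, hxJ, hyJ, hs1]
     exact_mod_cast h1
   have hcq : ⌈y * J⌉₊ ≤ q := Nat.ceil_le.2 hq
   have hs5 : 1 ≤ s₀ := by
     have h1 : (0 : ℝ) < s₀ := by linarith only [hxJ, hyJ, hs2]
     exact_mod_cast h1
   -- the event in the family
   obtain ⟨E, hE⟩ : ∃ E : F.Ω → Prop, E = fun ω => A ω ∧ B ω := ⟨_, rfl⟩
   exact by
    have hEA : Sub E A := fun ω hω => by rw [hE] at hω; exact hω.1
    have hEB : Sub E B := fun ω hω => by rw [hE] at hω; exact hω.2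
    have hPE : Real.exp (-(θ * J)) * Pe F.p A ≤ Pe F.p E := by
      rw [Pe_cond, le_div_iff₀ hA0] at hB
      rw [hE]
      exact hB
    -- visibility
    obtain ⟨φ₀, hφ₀⟩ := hz.vis
    obtain ⟨B₁, hB₁, hP₁, ⟨φ₁, hφ₁⟩, φ₂, hφ₂⟩ := zm_vis F h hr (C := Box.plkC lam i₀) (b := 5)
      (b' := 6) z E
      (fun ω hω x y hxy i => hz.bound (hEA ω hω) x y hxy i) φ₀ (fun ω hω => hφ₀ ω (hEA ω hω))
      (fun ω ω' h1 h2 hpt i => by
        have := hz.vel (hEA ω h1) (hEA ω' h2) hpt i
        exact_mod_cast this)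
    have hB₁A : Sub B₁ A := fun ω hω => hEA ω (hB₁ ω hω)
    obtain ⟨n, s, hns⟩ := hCh
    -- the covector in the coordinates, as a function of the point
    obtain ⟨l, hl⟩ : ∃ l : (Fin 3 → ℤ) × (ℕ × F.ζ) → Fin 3 → ℝ, l = fun y i =>
        (if i = i₁ then 1 else 0) - s (φ₂ y) i := ⟨_, rfl⟩
    have hlb : ∀ ω, B₁ ω → l (ptr F r ω) i₁ = 1 ∧ ∀ i, |l (ptr F r ω) i| ≤ 1 := by
      intro ω hω
      obtain ⟨h1, h2, -⟩ := hns ω (hEB ω (hB₁ ω hω))
      have e2 : s (φ₂ (ptr F r ω)) i₁ = 0 := by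
        rw [← hφ₂ ω hω]
        exact h1
      have e3 : ∀ j, |s (φ₂ (ptr F r ω)) j| ≤ 1 := by
        intro j
        rw [← hφ₂ ω hω]
        exact h2 j
      rw [hl]
      simp only
      refine ⟨by rw [if_pos trivial, e2, sub_zero], fun i => ?_⟩
      by_cases hi : i = i₁
      · rw [if_pos hi, hi, e2, sub_zero, abs_one]
      · rw [if_neg hi, zero_sub, abs_neg]
        exact e3 i
    -- the main inequality
    exact by
     have hmain : ∀ ω ω', B₁ ω → B₁ ω' → ptr F r ω = ptr F r ω' →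
         |∑ i, l (ptr F r ω) i * (pco lam i₀ (z ω) (F.d ω) i - pco lam i₀ (z ω) (F.d ω') i)| ≤
           8 / 2 ^ q := by
       intro ω ω' hω hω' hpt
       obtain ⟨-, -, h1⟩ := hns ω (hEB ω (hB₁ ω hω))
       obtain ⟨-, -, h2⟩ := hns ω' (hEB ω' (hB₁ ω' hω'))
       have e1 : Fam.pt (F.zm w J' h (Box.plkC lam i₀) z) ω = φ₂ (ptr F r ω) := hφ₂ ω hω
       have e2 : Fam.pt (F.zm w J' h (Box.plkC lam i₀) z) ω' = φ₂ (ptr F r ω) := by
         rw [hpt]
         exact hφ₂ ω' hω'
       have g1 : |(F.zm w J' h (Box.plkC lam i₀) z).d ω i₁ - n (φ₂ (ptr F r ω)) -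
           ∑ j, s (φ₂ (ptr F r ω)) j * (F.zm w J' h (Box.plkC lam i₀) z).d ω j| ≤ 1 / 2 ^ q := by
         rw [← e1]
         exact h1
       have g2 : |(F.zm w J' h (Box.plkC lam i₀) z).d ω' i₁ - n (φ₂ (ptr F r ω)) -
           ∑ j, s (φ₂ (ptr F r ω)) j * (F.zm w J' h (Box.plkC lam i₀) z).d ω' j| ≤ 1 / 2 ^ q := by
         rw [← e2]
         exact h2
       obtain ⟨D, hD⟩ : ∃ D : Fin 3 → ℝ, D = fun i => (F.zm w J' h (Box.plkC lam i₀) z).d ω i -
         (F.zm w J' h (Box.plkC lam i₀) z).d ω' i := ⟨_, rfl⟩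
       have g3 : |∑ i, l (ptr F r ω) i * D i| ≤ 2 / 2 ^ q := by
         have e3 : ∑ i, l (ptr F r ω) i * D i =
             ((F.zm w J' h (Box.plkC lam i₀) z).d ω i₁ - n (φ₂ (ptr F r ω)) -
               ∑ j, s (φ₂ (ptr F r ω)) j * (F.zm w J' h (Box.plkC lam i₀) z).d ω j) -
             ((F.zm w J' h (Box.plkC lam i₀) z).d ω' i₁ - n (φ₂ (ptr F r ω)) -
               ∑ j, s (φ₂ (ptr F r ω)) j * (F.zm w J' h (Box.plkC lam i₀) z).d ω' j) := by
           rw [hl, hD]
           simp only [sub_mul, ite_mul, one_mul, zero_mul, Finset.sum_sub_distrib,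
             Finset.sum_ite_eq', Finset.mem_univ, if_true, mul_sub]
           ring
         rw [e3]
         have e4 : (2 : ℝ) / 2 ^ q = 1 / 2 ^ q + 1 / 2 ^ q := by ring
         rw [e4]
         exact (abs_sub _ _).trans (add_le_add g1 g2)
       have hzz : z ω = z ω' := by
         rw [hφ₀ ω (hB₁A ω hω), hφ₀ ω' (hB₁A ω' hω'), hpt]
       have hb : F.bvl (Box.plkC lam i₀) z ω = F.bvl (Box.plkC lam i₀) z ω' := by
         rw [hφ₁ ω hω, hφ₁ ω' hω', hpt]
       have g4 : ∀ i, |(pco lam i₀ (z ω) (F.d ω) i - pco lam i₀ (z ω) (F.d ω') i) - D i| ≤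
           2 / 2 ^ q := by
         intro i
         have k1 : |(F.zm w J' h (Box.plkC lam i₀) z).d ω i -
             (pco lam i₀ (z ω) (F.d ω) i - F.bvl (Box.plkC lam i₀) z ω i)| ≤ 1 / 2 ^ J' :=
           zm_d F h (Box.plkC lam i₀) z ω i
         have k2 : |(F.zm w J' h (Box.plkC lam i₀) z).d ω' i -
             (pco lam i₀ (z ω') (F.d ω') i - F.bvl (Box.plkC lam i₀) z ω' i)| ≤ 1 / 2 ^ J' :=
           zm_d F h (Box.plkC lam i₀) z ω' i
         rw [← hzz, ← hb] at k2
         have k3 : (1 : ℝ) / 2 ^ J' ≤ 1 / 2 ^ q :=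
           one_div_le_one_div_of_le (by positivity) (pow_le_pow_right₀ (by norm_num) hqJ)
         have e4 : (2 : ℝ) / 2 ^ q = 1 / 2 ^ q + 1 / 2 ^ q := by ring
         rw [hD, e4]
         simp only
         rw [abs_le] at k1 k2 ⊢
         constructor <;> linarith only [h, k1, k2, k3, k1.1, k1.2, k2.1, k2.2]
       have e5 : ∑ i, l (ptr F r ω) i * (pco lam i₀ (z ω) (F.d ω) i - pco lam i₀ (z ω) (F.d ω') i) =
           ∑ i, l (ptr F r ω) i * D i + ∑ i, l (ptr F r ω) i *
             ((pco lam i₀ (z ω) (F.d ω) i - pco lam i₀ (z ω) (F.d ω') i) - D i) := by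
         rw [← Finset.sum_add_distrib]
         refine Finset.sum_congr rfl fun i _ => ?_
         ring
       rw [e5]
       have g5 : |∑ i, l (ptr F r ω) i *
             ((pco lam i₀ (z ω) (F.d ω) i - pco lam i₀ (z ω) (F.d ω') i) - D i)| ≤
           ∑ _i : Fin 3, (2 / 2 ^ q : ℝ) := by
         refine (Finset.abs_sum_le_sum_abs _ _).trans (Finset.sum_le_sum fun i _ => ?_)
         rw [abs_mul]
         calc _ ≤ 1 * (2 / 2 ^ q : ℝ) := mul_le_mul ((hlb ω hω).2 i) (g4 i) (abs_nonneg _)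
               zero_le_one
           _ = _ := one_mul _
       rw [Finset.sum_const, Finset.card_univ, Fintype.card_fin, nsmul_eq_mul] at g5
       push_cast at g5
       have e6 : (8 : ℝ) / 2 ^ q = 2 / 2 ^ q + 3 * (2 / 2 ^ q) := by ring
       rw [e6]
       exact (abs_add_le _ _).trans (add_le_add g3 g5)
     -- costs
     exact by
      have hcost : ∀ B₂ : F.Ω → Prop, Pe F.p B₁ ≤ 2 * Pe F.p B₂ →
          Real.exp (-((θ + κ') * J)) * Pe F.p A ≤ Pe F.p B₂ := by
        intro B₂ hP₂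
        have h1 : Pe F.p E ≤ C * Pe F.p B₂ := by
          rw [hC, mul_assoc]
          refine hP₁.trans (mul_le_mul_of_nonneg_left hP₂ (by positivity))
        have h2 := hJe J hJe'
        have h3 : Real.exp (-(κ' * J)) * C ≤ 1 := by
          have hC0 : 0 < C := by linarith only [hC1]
          rw [le_div_iff₀ hC0] at h2
          exact h2
        have e1 : Real.exp (-((θ + κ') * J)) =
            Real.exp (-(κ' * J)) * Real.exp (-(θ * J)) := by
          rw [← Real.exp_add]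
          congr 1
          ring
        rw [e1, mul_assoc]
        calc Real.exp (-(κ' * J)) * (Real.exp (-(θ * J)) * Pe F.p A) ≤
              Real.exp (-(κ' * J)) * (C * Pe F.p B₂) :=
              mul_le_mul_of_nonneg_left (hPE.trans h1) (Real.exp_pos _).le
          _ = (Real.exp (-(κ' * J)) * C) * Pe F.p B₂ := by ring
          _ ≤ 1 * Pe F.p B₂ := mul_le_mul_of_nonneg_right h3 (Pe_nonneg hp B₂)
          _ = _ := one_mul _
      rcases half_or hp (A := B₁)
        (S := fun ω => B₁ ω ∧ ∃ j, j ≠ i₀ ∧ 1 / 2 ^ s₀ ≤ |l (ptr F r ω) j|)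
        (T := fun ω => B₁ ω ∧ ∀ j, j ≠ i₀ → |l (ptr F r ω) j| ≤ 1 / 2 ^ s₀) (fun ω hω => by
          by_cases hj : ∃ j, j ≠ i₀ ∧ 1 / 2 ^ s₀ ≤ |l (ptr F r ω) j|
          · exact Or.inl ⟨hω, hj⟩
          · push Not at hj
            exact Or.inr ⟨hω, fun j h1 => (hj j h1).le⟩) with hS' | hT
      · -- good points
        refine ⟨_, fun ω hω => hB₁A ω hω.1, le_trans ?_ (hcost _ hS'), ?_⟩
        · refine mul_le_mul_of_nonneg_right (Real.exp_le_exp.2 ?_) hA0.le
          have := mul_le_mul_of_nonneg_right hκ1 hJr.le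
          linarith only [this]
        obtain ⟨M, hM⟩ : ∃ M : (Fin 3 → ℤ) × (ℕ × F.ζ) → Fin 3 → ℝ, M = fun y i =>
          if i = i₀ then l y i₀ - 2 ^ lam * ∑ j, (if j = i₀ then 0 else l y j * φ₀ y j) else
            2 ^ lam * l y i := ⟨_, rfl⟩
        choose ν hν1 hν2 using fun y => norm_cov (M y)
        refine ⟨ν, hν1, fun ω ω' hω hω' hpt => ?_⟩
        obtain ⟨j, hj1, hj2⟩ := hω.2
        have h1 := hmain ω ω' hω.1 hω'.1 hpt
        rw [pull_cov, hφ₀ ω (hB₁A ω hω.1)] at h1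
        have h2 := hν2 (ptr F r ω) (fun i => F.d ω i - F.d ω' i) (8 / 2 ^ q) (2 ^ lam / 2 ^ s₀)
          (by positivity) ⟨j, by
            rw [hM]
            simp only
            rw [if_neg hj1, abs_mul, abs_of_pos (by positivity)]
            calc (2 : ℝ) ^ lam / 2 ^ s₀ = 2 ^ lam * (1 / 2 ^ s₀) := by ring
              _ ≤ _ := mul_le_mul_of_nonneg_left hj2 (by positivity)⟩ (by
            rw [hM]
            exact h1)
        refine h2.trans ?_
        have e1 : (8 : ℝ) / 2 ^ q / (2 ^ lam / 2 ^ s₀) = 2 ^ (s₀ + 3) / 2 ^ (lam + q) := by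
          rw [pow_add, pow_add]
          field_simp
          norm_num
        rw [e1, div_le_div_iff₀ (by positivity) (by positivity), one_mul, ← pow_add]
        exact pow_le_pow_right₀ (by norm_num) (by omega)
      · -- bad points
        exfalso
        obtain ⟨B₂, hB₂⟩ : ∃ B₂ : F.Ω → Prop, B₂ = fun ω => B₁ ω ∧
          ∀ j, j ≠ i₀ → |l (ptr F r ω) j| ≤ 1 / 2 ^ s₀ := ⟨_, rfl⟩
        rw [← hB₂] at hT
        have hPB₂ := hcost B₂ hT
        have hB₂A : Sub B₂ A := fun ω hω => by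
          rw [hB₂] at hω
          exact hB₁A ω hω.1
        have h1 : ∀ ω ω', B₂ ω → B₂ ω' → ptr F r ω = ptr F r ω' →
            |F.d ω i₀ - F.d ω' i₀| ≤ 14 / 2 ^ s₀ := by
          intro ω ω' hω hω' hpt
          rw [hB₂] at hω hω'
          obtain ⟨k1, k2⟩ := hω
          obtain ⟨k1', k2'⟩ := hω'
          have hi : i₁ = i₀ := by
            by_contra hcon
            have h5 := k2 i₁ hcon
            rw [(hlb ω k1).1, abs_one] at h5
            rw [le_div_iff₀ (by positivity), one_mul] at h5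
            have h6 : (2 : ℝ) ^ 1 ≤ 2 ^ s₀ := pow_le_pow_right₀ (by norm_num) hs5
            linarith only [h5, h6]
          have hl1 : l (ptr F r ω) i₀ = 1 := by
            rw [← hi]
            exact (hlb ω k1).1
          have h5 := hmain ω ω' k1 k1' hpt
          have hzz : z ω = z ω' := by
            rw [hφ₀ ω (hB₁A ω k1), hφ₀ ω' (hB₁A ω' k1'), hpt]
          obtain ⟨X, hX⟩ : ∃ X : Fin 3 → ℝ, X = fun i =>
            pco lam i₀ (z ω) (F.d ω) i - pco lam i₀ (z ω) (F.d ω') i := ⟨_, rfl⟩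
          have hXi : X i₀ = F.d ω i₀ - F.d ω' i₀ := by
            rw [hX]
            unfold pco
            simp
          have hXb : ∀ i, |X i| ≤ 6 := by
            intro i
            have := hz.vel (hB₁A ω k1) (hB₁A ω' k1') hpt i
            rw [← hzz] at this
            rw [hX]
            exact this
          have h6 : |∑ i, l (ptr F r ω) i * X i| ≤ 8 / 2 ^ q := by
            rw [hX]
            exact h5
          have e1 : ∑ i, l (ptr F r ω) i * X i = X i₀ + ∑ i ∈ Finset.univ.erase i₀,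
              l (ptr F r ω) i * X i := by
            rw [← Finset.add_sum_erase Finset.univ _ (Finset.mem_univ i₀), hl1, one_mul]
          have h7 : |∑ i ∈ Finset.univ.erase i₀, l (ptr F r ω) i * X i| ≤ 12 / 2 ^ s₀ := by
            refine (Finset.abs_sum_le_sum_abs _ _).trans ?_
            have h8 : ∑ i ∈ Finset.univ.erase i₀, |l (ptr F r ω) i * X i| ≤
                ∑ _i ∈ Finset.univ.erase i₀, (6 / 2 ^ s₀ : ℝ) := by
              refine Finset.sum_le_sum fun i hi => ?_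
              rw [abs_mul]
              have := k2 i (Finset.ne_of_mem_erase hi)
              calc _ ≤ 1 / 2 ^ s₀ * 6 := mul_le_mul this (hXb i) (abs_nonneg _) (by positivity)
                _ = _ := by ring
            refine h8.trans (le_of_eq ?_)
            rw [Finset.sum_const, Finset.card_erase_of_mem (Finset.mem_univ _), Finset.card_univ,
              Fintype.card_fin, nsmul_eq_mul]
            push_cast
            ring
          have h9 : (8 : ℝ) / 2 ^ q ≤ 2 / 2 ^ s₀ := by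
            rw [div_le_div_iff₀ (by positivity) (by positivity)]
            have h10 : (2 : ℝ) ^ (s₀ + 2) ≤ 2 ^ q := pow_le_pow_right₀ (by norm_num) hs4
            rw [pow_add] at h10
            linarith only [h10]
          rw [← hXi]
          rw [e1] at h6
          have e2 : (14 : ℝ) / 2 ^ s₀ = 2 / 2 ^ s₀ + 12 / 2 ^ s₀ := by ring
          rw [e2]
          rw [abs_le] at h6 h7 ⊢
          constructor <;> linarith only [h6, h7, h9, h6.1, h6.2, h7.1, h7.2]
        have hb := thin_ball (h := s₀) (h₁ := ⌊h₁ * J⌋₊) hrJ (LineAt.hered _ _ _ _ _ _ hB₂A hL) h1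
        -- the precision
        obtain ⟨s', hs'⟩ : ∃ s' : ℕ, s' = ⌈x * J⌉₊ := ⟨_, rfl⟩
        have hs1' : x * J ≤ s' := by rw [hs']; exact Nat.le_ceil _
        have hs2' : (s' : ℝ) < x * J + 1 := by rw [hs']; exact Nat.ceil_lt_add_one (by positivity)
        have hhJ : 4 * (x * J) ≤ h₁ * J := by
          have := mul_le_mul_of_nonneg_right hx2 hJr.le
          linarith only [this]
        have hsq : s' + 5 ≤ s₀ := by
          have : (((s' + 5 : ℕ) : ℝ)) < s₀ + 1 := by
            push_cast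
            linarith only [hxJ, hyJ, hs2, hs2']
          have h5 : s' + 5 < s₀ + 1 := by exact_mod_cast this
          omega
        have hsh : s' + 2 ≤ ⌊h₁ * (J : ℝ)⌋₊ := by
          refine Nat.le_floor ?_
          push_cast
          linarith only [hxJ, hs2', hhJ]
        have hsJ : s' ≤ J := by omega
        have hS₂ : Fam.Stt F a R τb B₂ := by
          have h4 := Fam.Stt.mono (by linarith only [hκ0, hκ2] : τb / 3 ≤ τb) hS
          refine ⟨h4.1, h4.2.1, h4.2.2.1, le_trans ?_ hPB₂⟩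
          refine le_trans ?_ (mul_le_mul_of_nonneg_left hS.2.2.2 (Real.exp_pos _).le)
          rw [← Real.exp_add]
          refine Real.exp_le_exp.2 ?_
          have := mul_le_mul_of_nonneg_right hκ2 hJr.le
          have := mul_le_mul_of_nonneg_right hθ hJr.le
          linarith
        refine hball J hJb F B₂ hS₂ s' hsJ hs1' ?_
        obtain ⟨ζ, hζ⟩ := hb
        refine ⟨ζ, fun ω hω j => (hζ ω hω j).trans ?_⟩
        have e1 : (14 : ℝ) / 2 ^ s₀ ≤ 14 / 2 ^ (s' + 5) :=
          div_le_div_of_nonneg_left (by norm_num) (by positivity)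
            (pow_le_pow_right₀ (by norm_num) hsq)
        have e2 : (2 : ℝ) / 2 ^ ⌊h₁ * (J : ℝ)⌋₊ ≤ 2 / 2 ^ (s' + 2) :=
          div_le_div_of_nonneg_left (by norm_num) (by positivity)
            (pow_le_pow_right₀ (by norm_num) hsh)
        have e3 : (14 : ℝ) / 2 ^ (s' + 5) = 14 / 32 * (1 / 2 ^ s') := by
          rw [pow_add]
          norm_num
          ring
        have e4 : (2 : ℝ) / 2 ^ (s' + 2) = 1 / 2 * (1 / 2 ^ s') := by
          rw [pow_add]
          norm_num
          ring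
        have e5 : (0 : ℝ) < 1 / 2 ^ s' := by positivity
        linarith only [e1, e2, e3, e4, e5]

end Pool.ZCL
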